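import Pool.Agent.Work.MP_3789da_an.Ban2

set_option autoImplicit false

namespace Pool.Agent.Results.MP_3789da_an.BanachL1

open MeasureTheory Pool.Agent.Work.MP_3789da_an

/-- Q1 fails on the Banach space `L¹(0,1]`, with all values inside the set of probability
densities (so also on the closed unit ball and on the densities, closed bounded convex sets). -/
theorem result :
    ∃ (φ : ℝ → ℝ) (T : Lp ℝ 1 (volume.restrict (Set.Ioc (0 : ℝ) 1)) →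
        Set (Lp ℝ 1 (volume.restrict (Set.Ioc (0 : ℝ) 1)))),
      (∀ t, φ t = 3 * t / 4 + t / (4 + t)) ∧
      φ 0 = 0 ∧ (∀ s : ℝ, 0 < s → 0 < φ s) ∧
      (∀ s : ℝ, 0 < s → ∃ δ : ℝ, 0 < δ ∧ ∀ t ∈ Set.Icc s (s + δ), φ t ≤ s) ∧
      (∀ x, (T x).Nonempty ∧ IsClosed (T x) ∧ ∀ z ∈ T x, 0 ≤ z ∧ ‖z‖ = 1) ∧
      (∀ x y, x ≠ y → Metric.hausdorffEDist (T x) (T y) < ENNReal.ofReal (φ (dist x y))) ∧
      ∀ x, x ∉ T x :=
  ⟨fun t => 3 * t / 4 + t / (4 + t), Ban.Tm Ban.Den fun f => Ban.r1 f ^ 2, fun _ => rfl, by simp,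
    fun s hs => by positivity, fun _ hs => Ban.phi_L hs,
    fun x => ⟨Ban.mv1.ne Ban.den_ne x, Ban.Tm_closed Ban.den_closed (Ban.r1_cont.pow 2) x,
      fun _ hz => Ban.den_sub hz.1⟩,
    Ban.mv1.haus, Ban.Tm_not fun _ hz => pow_pos (Ban.r1_pos hz) 2⟩

end Pool.Agent.Results.MP_3789da_an.BanachL1
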