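import Pool.Agent.Work.MP_3789da_an.Chain

set_option autoImplicit false

namespace Pool.Agent.Results.MP_3789da_an.Dichotomy

universe u

/-- For a non-decreasing gauge `φ` with `φ t ≤ t` (every non-decreasing L-function is one) the
following are equivalent: (1) the fixed point theorem of Q1 holds for `φ`; (2) it holds on bounded
spaces; (3) every positive sequence with `l (n+1) < φ (l n)` is summable. -/
theorem result (φ : ℝ → ℝ) (hm : MonotoneOn φ (Set.Ioi 0)) (hle : ∀ t, 0 < t → φ t ≤ t) :
    List.TFAE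
      [∀ (X : Type u) [MetricSpace X] [CompleteSpace X] [Nonempty X] (T : X → Set X),
          (∀ x, (T x).Nonempty ∧ IsClosed (T x)) →
          (∀ x y, x ≠ y → Metric.hausdorffEDist (T x) (T y) < ENNReal.ofReal (φ (dist x y))) →
          ∃ x, x ∈ T x,
        ∀ (X : Type u) [MetricSpace X] [CompleteSpace X] [Nonempty X] (T : X → Set X),
          Bornology.IsBounded (Set.univ : Set X) → (∀ x, (T x).Nonempty ∧ IsClosed (T x)) →
          (∀ x y, x ≠ y → Metric.hausdorffEDist (T x) (T y) < ENNReal.ofReal (φ (dist x y))) →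
          ∃ x, x ∈ T x,
        ∀ l : ℕ → ℝ, (∀ n, 0 < l n) → (∀ n, l (n + 1) < φ (l n)) → Summable l] := by
  tfae_have 1 → 2 := fun h X _ _ _ T _ h1 h2 => h X T h1 h2
  tfae_have 2 → 3 := Pool.Agent.Work.MP_3789da_an.summable_of_fixed hm hle
  tfae_have 3 → 1 := fun h X _ _ _ T h1 h2 =>
    Pool.Agent.Work.MP_3789da_an.fixed_of_summable hle h X T h1 h2
  tfae_finish

end Pool.Agent.Results.MP_3789da_an.Dichotomy
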