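import Pool.Agent.Work.MP_3789da_an.Ban3

set_option autoImplicit false

namespace Pool.Agent.Results.MP_3789da_an.NormedSpaces

open Pool.Agent.Work.MP_3789da_an

universe u

/-- On a real normed space the fixed point statement of Q1 holds exactly in dimension at most
one. -/
theorem result (X : Type u) [NormedAddCommGroup X] [NormedSpace ℝ X] :
    (∀ (T : X → Set X) (φ : ℝ → ℝ),
      (∀ x, (T x).Nonempty ∧ IsClosed (T x)) →
      φ 0 = 0 →
      (∀ s : ℝ, 0 < s → 0 < φ s) →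
      (∀ s : ℝ, 0 < s → ∃ δ : ℝ, 0 < δ ∧ ∀ t ∈ Set.Icc s (s + δ), φ t ≤ s) →
      (∀ x y : X, x ≠ y →
        Metric.hausdorffEDist (T x) (T y) < ENNReal.ofReal (φ (dist x y))) →
      ∃ x : X, x ∈ T x) ↔ Module.rank ℝ X ≤ 1 := by
  rw [rank_le_one_iff]
  constructor
  · intro h
    by_contra h1
    obtain ⟨T, φ, a1, a2, a3, a4, a5, a6⟩ := Nrm.neg h1
    obtain ⟨x, hx⟩ := h T φ a1 a2 a3 a4 a5
    exact a6 x hx
  · intro h T φ a1 _ _ a4 a5
    exact Nrm.pos h T φ a1 a4 a5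

end Pool.Agent.Results.MP_3789da_an.NormedSpaces
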